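import Mathlib
import Pool.Agent.H48.ScribeDefs
import Pool.Agent.H48.Assemble

/-!
# For every `d ≥ 5` there is a `d`-polytope that is not `(1,d-1)`-scribable

Proof outline.  In a realization whose edges all strongly avoid the sphere, the caps of adjacent
vertices meet; if the graph is complete, all caps meet pairwise, and looking near the smallest cap
one colours the vertices with a number `c(d)` of colours so that each colour class of caps has a
common interior point.  A facet whose vertices all have the same colour cannot cut the sphere.
So it suffices to find, for each `c`, a `d`-polytope with complete graph such that every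
`c`-colouring of its vertices has a monochromatic facet.  Its vertices are indexed by the grid
`[d]^N`; they are the images of a generic planar projection of the grid, perturbed by a cubic power
sum, under all monomials of degree at most two, together with the power sums of degrees
`5, …, d - 1`.  Squares of lines expose all pairs of vertices, and every combinatorial line of the
grid spans a simplex facet.  The Hales-Jewett theorem gives the monochromatic facet.
-/

namespace Pool.Agent.Results.MP_822fc8_co.NonScribable

open Pool.Agent.Scribability Pool.Agent.H48

/-- For every `d ≥ 5` (in particular for every odd `d ≥ 5`) there is a spherical `d`-polytope whose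
combinatorial type is not strongly `(1,d-1)`-scribable. -/
theorem result (d : ℕ) (hd : 5 ≤ d) :
    ∃ K : PointedCone ℝ (E d), IsSphericalPolytope d K ∧ ¬ IsScribable 1 (d - 1) K := by
  obtain ⟨m, rfl⟩ : ∃ m, d = m + 1 := ⟨d - 1, by omega⟩
  obtain ⟨ι, hι, hHJ⟩ :=
    Combinatorics.Line.exists_mono_in_high_dimension (Fin (m + 1)) (Col m)
  obtain ⟨v, hv⟩ := exists_goodConfig ι hd
  obtain ⟨l₀, -⟩ := hHJ (fun _ => none)
  obtain ⟨z₀, hz₀⟩ := exists_off_line (by omega) l₀ hHJ
  refine ⟨K v, isSphericalPolytope_K hv l₀ hz₀, ?_⟩
  rintro ⟨K', hK', ⟨φ⟩, havoid, hcut⟩
  exact not_scribed (by omega) hv hHJ hK' φ havoid hcut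

end Pool.Agent.Results.MP_822fc8_co.NonScribable
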